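import Pool.Agent.Work.MP_88b7aa_gt.D.C3_5_5.F0

/-! The class is done. -/

set_option autoImplicit false

namespace Pool.Agent.Work.MP_88b7aa_gt.D.C3_5_5

open Pool.Agent.Work.MP_88b7aa_gt.PQ
open Pool.Agent.Work.MP_88b7aa_gt.Kc

theorem g0 : Good (KS (.ex 3) (.ex 5) (.iv 5 0)) H.k ⟨⟨140737488355328, 0, 0, 0, 0, 16⟩, ⟨227718039650213, 0, 0, 0, 0, 16⟩, ⟨268035738828800, 0, 13439237881856, 0, 0, 0⟩, ⟨85551883485184, 5842730483712, 2089056993280, 0, 0, 0⟩⟩ :=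
  mB_good H_ok M0.k LB.nil

theorem g1 : Good (KS (.ex 3) (.ex 5) (.iv 5 0)) H.k ⟨⟨140737488355328, 0, 0, 0, 0, 16⟩, ⟨227718039650213, 0, 0, 0, 0, 16⟩, ⟨254596500946944, 0, 26878475763712, 0, 0, 0⟩, ⟨77620096008192, 11685460967424, 4178113986560, 0, 0, 0⟩⟩ :=
  mB_good H_ok M1.k (LB.cons g0 LB.nil)

theorem g2 : CGood (KS (.ex 3) (.ex 5) (.iv 5 0)) H.k ⟨140737488355328, 0, 0, 0, 0, 16⟩ ⟨227718039650213, 0, 0, 0, 0, 16⟩ ⟨254596500946944, 0, 26878475763712, 0, 0, 0⟩ ⟨0, 0, 0, 0, 0, 0⟩ :=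
  mC_good H_ok M2.k (LB.cons g1 LB.nil) LC.nil

theorem done : Done (KS (.ex 3) (.ex 5) (.iv 5 0)) := fin (by decide +kernel) g2

end Pool.Agent.Work.MP_88b7aa_gt.D.C3_5_5
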